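import Pool.Agent.Lib.MP_bdcdea_lc.Main

set_option autoImplicit false

/-!
# Square at `ℵ₂` and `2 ^ ℵ₁ = ℵ₂` give an `ℵ₂`-Souslin tree
-/

namespace Pool.Agent.Results.MP_bdcdea_lc.SquareSouslin

open Pool.Agent.Lib.MP_bdcdea_lc

/-- If `2 ^ ℵ₁ = ℵ₂` and `□(ℵ₂)` holds, then there is an `ℵ₂`-Souslin tree. -/
theorem result (hp : (2 : Cardinal.{0}) ^ Cardinal.aleph 1 = Cardinal.aleph 2)
    (hS : SquareAt (Cardinal.aleph 2)) :
    ∃ (T : Type) (_ : PartialOrder T), IsSouslinTree (Cardinal.aleph 2) T :=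
  main hp hS

end Pool.Agent.Results.MP_bdcdea_lc.SquareSouslin
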